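import Pool.Agent.Helper9.MP.Lat

/-!
# MP_bde085_nt, module AMPW: amplified pointwise bound at good points, with Atkin-Lehner matrices
-/

set_option autoImplicit false

namespace Pool.Agent.Helper96.MP

open Complex MeasureTheory Filter Topology
open scoped MatrixGroups

theorem ampw_tn {n : ℕ} {t : ℕ × ℕ × ℕ} (h : t ∈ Tn n) : t.1 * t.2.2 = n ∧ t.2.1 < t.2.2 := by
  unfold Tn at h
  exact (Finset.mem_filter.mp h).2

theorem ampw_pj {p j : ℕ} (hp : p.Prime) {t : ℕ × ℕ × ℕ} (h : t ∈ Pj p j) :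
    t.1 * t.2.2 = p ^ j ∧ 0 < t.1 ∧ 0 < t.2.2 := by
  unfold Pj at h
  have h1 := ampw_tn (Finset.mem_filter.mp h).1
  have h2 : 0 < p ^ j := pow_pos hp.pos j
  refine ⟨h1.1, ?_, ?_⟩
  · rcases Nat.eq_zero_or_pos t.1 with h0 | h0
    · have := h1.1
      rw [h0, zero_mul] at this
      omega
    · exact h0
  · omega

theorem ampw_act_im (t : ℕ × ℕ × ℕ) (z : ℂ) :
    (act t z).im = (t.1 : ℝ) * z.im / (t.2.2 : ℝ) := by
  unfold act
  rw [Complex.div_natCast_im]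
  simp

theorem ampw_act_mem {p j : ℕ} (hp : p.Prime) {t : ℕ × ℕ × ℕ} (h : t ∈ Pj p j) {z : ℂ}
    (hz : z ∈ UH) : act t z ∈ UH := by
  obtain ⟨-, h1, h2⟩ := ampw_pj hp h
  have hz' : 0 < z.im := hz
  have h1' : (0 : ℝ) < t.1 := by exact_mod_cast h1
  have h2' : (0 : ℝ) < t.2.2 := by exact_mod_cast h2
  show 0 < (act t z).im
  rw [ampw_act_im]
  positivity

theorem ampw_ball {c : ℂ} (hc : c ∈ UH) : Metric.ball c (c.im / 10) ⊆ UH := by
  intro z hz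
  have hc' : 0 < c.im := hc
  rw [Metric.mem_ball, Complex.dist_eq] at hz
  have h1 := Complex.abs_im_le_norm (z - c)
  rw [Complex.sub_im] at h1
  have h2 := neg_abs_le (z.im - c.im)
  show 0 < z.im
  linarith

theorem ampw_one_mem (p : ℕ) : (1, 0, 1) ∈ Pj p 0 := by
  unfold Pj Tn
  simp

theorem ampw_act_one (z : ℂ) : act (1, 0, 1) z = z := by
  simp [act]

/-- denominators do not vanish -/
theorem ampw_den {A B C D : ℤ} {m : ℤ} (hm : 0 < m) (h : A * D - B * C = m) {z : ℂ} (hz : z ∈ UH) :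
    (C : ℂ) * z + D ≠ 0 := by
  intro h0
  have hz' : 0 < z.im := hz
  have him := congrArg Complex.im h0
  have hre := congrArg Complex.re h0
  simp at him hre
  rcases him with h1 | h1
  · rw [h1] at hre h
    simp at hre
    rw [hre] at h
    simp at h
    omega
  · linarith

/-- the transformed point -/
theorem ampw_al {N Q : ℕ} {A B C D : ℤ} (hQ : 0 < Q) (hT : TQ N Q 1 A B C D) {z : ℂ} (hz : z ∈ UH) :
    mo A B C D z ∈ UH ∧ (mo A B C D z).im = (Q : ℝ) * z.im / ‖(C : ℂ) * z + D‖ ^ 2 := by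
  have hz' : 0 < z.im := hz
  have hdet : A * D - B * C = (Q : ℤ) := by rw [hT.1, one_mul]
  have hQ' : (0 : ℝ) < Q := by exact_mod_cast hQ
  have hden := ampw_den (by exact_mod_cast hQ) hdet hz
  have h1 := Lib.mo_im A B C D z hden
  rw [hdet] at h1
  rw [Int.cast_natCast] at h1
  refine ⟨?_, h1⟩
  show 0 < (mo A B C D z).im
  rw [h1]
  have h2 : 0 < ‖(C : ℂ) * z + D‖ := norm_pos_iff.mpr hden
  positivity

/-- module AMPW -/
theorem st_AMPW (hHPE : ST_HPE) (hHPC : ST_HPC) (hSUMB : ST_SUMB) (hSEP : ST_SEPW)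
    (hFOLD : ST_FOLD) (hMV : ST_MV) (hQD : ST_QDIF) (hTQM : ST_TQM) : ST_AMPW := by
  refine ⟨12800 / Real.pi, by positivity, ?_⟩
  intro N p J b α χ hN hp hpN hb hχ hEW hT z0 hz0 hbad
  have hy : 0 < z0.im := hz0
  -- Atkin-Lehner matrices
  have hex : ∀ Q : ℕ, ∃ M : ℤ × ℤ × ℤ × ℤ, Q ∈ UD N → TQ N Q 1 M.1 M.2.1 M.2.2.1 M.2.2.2 := by
    intro Q
    by_cases hQ : Q ∈ UD N
    · obtain ⟨A, B, C, D, h⟩ := (hTQM N hN).2.1 Q hQ
      exact ⟨(A, B, C, D), fun _ => h⟩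
    · exact ⟨(0, 0, 0, 0), fun h => absurd h hQ⟩
  choose M hM using hex
  have hQpos : ∀ Q ∈ UD N, 0 < Q := by
    intro Q hQ
    unfold UD at hQ
    exact Nat.pos_of_mem_divisors (Finset.mem_filter.mp hQ).1
  obtain ⟨w, hw⟩ : ∃ w : ℕ → ℂ, w = fun Q => mo (M Q).1 (M Q).2.1 (M Q).2.2.1 (M Q).2.2.2 z0 :=
    ⟨_, rfl⟩
  have hwUH : ∀ Q ∈ UD N, w Q ∈ UH := by
    intro Q hQ
    rw [hw]
    exact (ampw_al (hQpos Q hQ) (hM Q hQ) hz0).1
  have hwv : ∀ Q ∈ UD N, (w Q).im * ‖qs b (w Q)‖ = z0.im * ‖qs b z0‖ := by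
    intro Q hQ
    have hQ0 : (0 : ℝ) < Q := by exact_mod_cast hQpos Q hQ
    have h1 := hEW Q hQ _ _ _ _ (hM Q hQ) z0 hz0
    have h2 := (ampw_al (hQpos Q hQ) (hM Q hQ) hz0).2
    have h3 : qs (fun n => (χ Q : ℂ) * b n) z0 = (χ Q : ℂ) * qs b z0 := by
      unfold qs
      rw [← tsum_mul_left]
      apply tsum_congr
      intro k
      ring
    rw [h3] at h1
    have h4 := congrArg (fun x : ℂ => ‖x‖) h1
    simp only [norm_mul, norm_div, norm_pow, Complex.norm_natCast, Complex.norm_real] at h4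
    have h5 : ‖χ Q‖ = 1 := by
      rcases hχ Q hQ with h | h <;> rw [h] <;> simp
    rw [h5, one_mul] at h4
    rw [hw]
    show (mo (M Q).1 (M Q).2.1 (M Q).2.2.1 (M Q).2.2.2 z0).im * _ = _
    rw [h2, h4]
    ring
  obtain ⟨S, hS⟩ : ∃ S : Finset (ℕ × ℕ × ℕ), S = (Finset.range (J + 1)).biUnion (Pj p) := ⟨_, rfl⟩
  have hSm : ∀ t, t ∈ S ↔ ∃ j ≤ J, t ∈ Pj p j := by
    intro t
    rw [hS, Finset.mem_biUnion]
    constructor
    · rintro ⟨j, hj, ht⟩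
      exact ⟨j, by rw [Finset.mem_range] at hj; omega, ht⟩
    · rintro ⟨j, hj, ht⟩
      exact ⟨j, by rw [Finset.mem_range]; omega, ht⟩
  have hUH : ∀ t ∈ S, ∀ Q ∈ UD N, act t (w Q) ∈ UH := by
    intro t ht Q hQ
    obtain ⟨j, -, ht'⟩ := (hSm t).mp ht
    exact ampw_act_mem hp ht' (hwUH Q hQ)
  -- folding
  have hfold := hFOLD N b hN hb ({t // t ∈ S} × {Q // Q ∈ UD N})
    (fun t => Metric.ball (act t.1.1 (w t.2.1)) ((act t.1.1 (w t.2.1)).im / 10)) 2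
    (fun t => measurableSet_ball) (fun t => ampw_ball (hUH t.1.1 t.1.2 t.2.1 t.2.2)) (by
      intro ζ hζ
      obtain ⟨h1, h2⟩ := hSEP N p J hN hp hpN (fun Q => (M Q).1) (fun Q => (M Q).2.1)
        (fun Q => (M Q).2.2.1) (fun Q => (M Q).2.2.2) (fun Q hQ => hM Q hQ) z0 hz0 hbad ζ hζ
      obtain ⟨φ, hφ⟩ : ∃ φ : SL(2, ℤ) × ({t // t ∈ S} × {Q // Q ∈ UD N}) →
          SL(2, ℤ) × (ℕ × ℕ × ℕ) × ℕ,
        φ = fun u => (u.1, u.2.1.1, u.2.2.1) := ⟨_, rfl⟩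
      have hinj : Function.Injective φ := by
        intro u v huv
        rw [hφ] at huv
        simp only [Prod.mk.injEq] at huv
        exact Prod.ext huv.1 (Prod.ext (Subtype.ext huv.2.1) (Subtype.ext huv.2.2))
      have hmaps : ∀ u ∈ {u : SL(2, ℤ) × ({t // t ∈ S} × {Q // Q ∈ UD N}) |
          u.1 ∈ CongruenceSubgroup.Gamma0 N ∧
          mob u.1 ζ ∈ Metric.ball (act u.2.1.1 (w u.2.2.1)) ((act u.2.1.1 (w u.2.2.1)).im / 10)},
          φ u ∈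
          {u : SL(2, ℤ) × (ℕ × ℕ × ℕ) × ℕ | u.1 ∈ CongruenceSubgroup.Gamma0 N ∧
            (∃ j ≤ J, u.2.1 ∈ Pj p j) ∧ u.2.2 ∈ UD N ∧
            mob u.1 ζ ∈ Metric.ball (act u.2.1 (mo (M u.2.2).1 (M u.2.2).2.1 (M u.2.2).2.2.1
                (M u.2.2).2.2.2 z0))
              ((act u.2.1 (mo (M u.2.2).1 (M u.2.2).2.1 (M u.2.2).2.2.1
                (M u.2.2).2.2.2 z0)).im / 10)} := by
        rintro ⟨g, ⟨t, ht⟩, ⟨Q, hQ⟩⟩ ⟨hu1, hu2⟩
        rw [hφ]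
        rw [hw] at hu2
        exact ⟨hu1, (hSm t).mp ht, hQ, hu2⟩
      constructor
      · exact Set.Finite.of_finite_image (h1.subset (Set.image_subset_iff.mpr hmaps))
          hinj.injOn
      · exact (Set.ncard_le_ncard_of_injOn φ hmaps hinj.injOn h1).trans h2)
  obtain ⟨hint, hsum⟩ := hfold
  -- mean values
  obtain ⟨A, hA⟩ : ∃ A : ℕ → ℕ × ℕ × ℕ → ℝ,
    A = fun Q t => (act t (w Q)).im ^ 2 * ‖qs b (act t (w Q))‖ ^ 2 := ⟨_, rfl⟩
  have hA0 : ∀ Q t, 0 ≤ A Q t := by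
    intro Q t
    rw [hA]
    positivity
  have hmv : ∀ t : {t // t ∈ S} × {Q // Q ∈ UD N}, A t.2.1 t.1.1 * (Real.pi / 100) ≤
      ∫ z in Metric.ball (act t.1.1 (w t.2.1)) ((act t.1.1 (w t.2.1)).im / 10), ‖qs b z‖ ^ 2 := by
    intro t
    have hc := hUH t.1.1 t.1.2 t.2.1 t.2.2
    have hc' : 0 < (act t.1.1 (w t.2.1)).im := hc
    have h1 := hMV (qs b) (act t.1.1 (w t.2.1)) ((act t.1.1 (w t.2.1)).im / 10) (by positivity)
      ((hQD N b hN hb).2.1.mono (ampw_ball hc)) (hint t)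
    refine le_trans (le_of_eq ?_) h1
    rw [hA]
    ring
  have hAS : (∑ Q ∈ UD N, ∑ t ∈ S, A Q t) * (Real.pi / 100) ≤ 2 * nrm N b := by
    have h1 : ∑ t : {t // t ∈ S} × {Q // Q ∈ UD N}, A t.2.1 t.1.1 * (Real.pi / 100) ≤
        2 * nrm N b := by
      refine le_trans (Finset.sum_le_sum (fun t _ => hmv t)) ?_
      have := hsum
      push_cast at this
      exact this
    rw [← Finset.sum_mul, Fintype.sum_prod_type_right] at h1
    have h2 : ∑ Q : {Q // Q ∈ UD N}, ∑ t : {t // t ∈ S}, A Q.1 t.1 =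
        ∑ Q ∈ UD N, ∑ t ∈ S, A Q t := by
      rw [← Finset.attach_eq_univ, ← Finset.sum_attach (UD N)]
      apply Finset.sum_congr rfl
      intro Q _
      rw [← Finset.attach_eq_univ]
      exact Finset.sum_attach S (A Q.1)
    rwa [h2] at h1
  -- Hecke relations
  have hX : 0 ≤ z0.im ^ 2 * ‖qs b z0‖ ^ 2 := by positivity
  have hsq : ∀ Q ∈ UD N, (w Q).im ^ 2 * ‖qs b (w Q)‖ ^ 2 = z0.im ^ 2 * ‖qs b z0‖ ^ 2 := by
    intro Q hQ
    rw [← mul_pow, hwv Q hQ, mul_pow]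
  have hzero : ∀ Q ∈ UD N, z0.im ^ 2 * ‖qs b z0‖ ^ 2 ≤ ∑ t ∈ Pj p 0, A Q t := by
    intro Q hQ
    have h1 : A Q (1, 0, 1) ≤ ∑ t ∈ Pj p 0, A Q t :=
      Finset.single_le_sum (fun t _ => hA0 Q t) (ampw_one_mem p)
    refine le_trans (le_of_eq ?_) h1
    rw [hA]
    show _ = (act (1, 0, 1) (w Q)).im ^ 2 * ‖qs b (act (1, 0, 1) (w Q))‖ ^ 2
    rw [ampw_act_one, hsq Q hQ]
  have hj : (∀ n, Tl p b n = (α : ℂ) * b n) → ∀ Q ∈ UD N, ∀ j : ℕ,
      bet p α j ^ 2 / (p : ℝ) ^ j * (z0.im ^ 2 * ‖qs b z0‖ ^ 2) ≤ 2 * ∑ t ∈ Pj p j, A Q t := by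
    intro hT' Q hQ j
    have hwu := hwUH Q hQ
    have hwi : 0 < (w Q).im := hwu
    have h1 := hHPE N p b α hN hp hb hT' j (w Q) hwu
    have h2 : |bet p α j| * ((w Q).im * ‖qs b (w Q)‖) ≤
        ∑ t ∈ Pj p j, (act t (w Q)).im * ‖qs b (act t (w Q))‖ := by
      have h3 : ‖(bet p α j : ℂ) * (((w Q).im : ℂ) * qs b (w Q))‖ =
          |bet p α j| * ((w Q).im * ‖qs b (w Q)‖) := by
        rw [norm_mul, norm_mul, Complex.norm_real, Complex.norm_real, Real.norm_eq_abs,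
          Real.norm_of_nonneg hwi.le]
      rw [← h3, ← h1]
      refine (norm_sum_le _ _).trans (le_of_eq ?_)
      apply Finset.sum_congr rfl
      intro t ht
      have hc : 0 < (act t (w Q)).im := ampw_act_mem hp ht hwu
      rw [norm_mul, Complex.norm_real, Real.norm_of_nonneg hc.le]
    have h4 : (|bet p α j| * ((w Q).im * ‖qs b (w Q)‖)) ^ 2 ≤
        ((Pj p j).card : ℝ) * ∑ t ∈ Pj p j, A Q t := by
      refine (pow_le_pow_left₀ (by positivity) h2 2).trans ?_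
      refine (sq_sum_le_card_mul_sum_sq (s := Pj p j)
        (f := fun t => (act t (w Q)).im * ‖qs b (act t (w Q))‖)).trans (le_of_eq ?_)
      congr 1
      apply Finset.sum_congr rfl
      intro t _
      rw [hA]
      ring
    have h5 : 0 ≤ ∑ t ∈ Pj p j, A Q t := Finset.sum_nonneg (fun t _ => hA0 Q t)
    have hp0 : (0 : ℝ) < (p : ℝ) ^ j := pow_pos (by exact_mod_cast hp.pos) j
    have h6 : (|bet p α j| * ((w Q).im * ‖qs b (w Q)‖)) ^ 2 =
        bet p α j ^ 2 * (z0.im ^ 2 * ‖qs b z0‖ ^ 2) := by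
      rw [mul_pow, mul_pow, sq_abs, hsq Q hQ]
    have h7 := mul_le_mul_of_nonneg_right (hHPC p j hp).1 h5
    rw [div_mul_eq_mul_div, div_le_iff₀ hp0]
    rw [h6] at h4
    linarith
  -- disjointness
  have hdisj : ∀ Q, ∑ j ∈ Finset.range (J + 1), ∑ t ∈ Pj p j, A Q t = ∑ t ∈ S, A Q t := by
    intro Q
    rw [hS, Finset.sum_biUnion]
    intro i _ j _ hij
    rw [Function.onFun, Finset.disjoint_left]
    intro t hti htj
    apply hij
    have h1 := (ampw_pj hp hti).1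
    have h2 := (ampw_pj hp htj).1
    rw [h1] at h2
    exact Nat.pow_right_injective hp.two_le h2
  have h0S : ∀ Q ∈ UD N, z0.im ^ 2 * ‖qs b z0‖ ^ 2 ≤ ∑ t ∈ S, A Q t := by
    intro Q hQ
    refine (hzero Q hQ).trans ?_
    rw [← hdisj Q]
    exact Finset.single_le_sum (f := fun j => ∑ t ∈ Pj p j, A Q t)
      (fun j _ => Finset.sum_nonneg (fun t _ => hA0 Q t)) (Finset.mem_range.mpr (Nat.succ_pos J))
  have h8 : ∀ Q ∈ UD N, ((J : ℝ) + 1) / 64 * (z0.im ^ 2 * ‖qs b z0‖ ^ 2) ≤ ∑ t ∈ S, A Q t := by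
    intro Q hQ
    have h01 := h0S Q hQ
    rcases hT with hJ | hT'
    · rw [hJ]
      push_cast
      linarith
    · rcases Nat.eq_zero_or_pos J with hJ | hJ
      · rw [hJ]
        push_cast
        linarith
      · have hJ1 : (1 : ℝ) ≤ J := by exact_mod_cast hJ
        have h02 : (J : ℝ) / 16 * (z0.im ^ 2 * ‖qs b z0‖ ^ 2) ≤ 2 * ∑ t ∈ S, A Q t := by
          rw [← hdisj Q, Finset.mul_sum]
          refine le_trans (mul_le_mul_of_nonneg_right (hSUMB p J α hp.two_le) hX) ?_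
          rw [Finset.sum_mul]
          exact Finset.sum_le_sum (fun j _ => hj hT' Q hQ j)
        have h03 : ((J : ℝ) + 1) / 64 * (z0.im ^ 2 * ‖qs b z0‖ ^ 2) ≤
            (J : ℝ) / 32 * (z0.im ^ 2 * ‖qs b z0‖ ^ 2) :=
          mul_le_mul_of_nonneg_right (by linarith) hX
        linarith
  have hpi := Real.pi_pos
  have h8' : ((UD N).card : ℝ) * (((J : ℝ) + 1) / 64 * (z0.im ^ 2 * ‖qs b z0‖ ^ 2)) ≤
      ∑ Q ∈ UD N, ∑ t ∈ S, A Q t := by
    rw [← nsmul_eq_mul]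
    exact Finset.card_nsmul_le_sum _ _ _ h8
  have h9 : ∑ Q ∈ UD N, ∑ t ∈ S, A Q t ≤ 200 / Real.pi * nrm N b := by
    have h10 : ∑ Q ∈ UD N, ∑ t ∈ S, A Q t =
        ((∑ Q ∈ UD N, ∑ t ∈ S, A Q t) * (Real.pi / 100)) * (100 / Real.pi) := by
      field_simp
    rw [h10]
    calc ((∑ Q ∈ UD N, ∑ t ∈ S, A Q t) * (Real.pi / 100)) * (100 / Real.pi) ≤
        (2 * nrm N b) * (100 / Real.pi) := mul_le_mul_of_nonneg_right hAS (by positivity)
      _ = 200 / Real.pi * nrm N b := by ring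
  calc ((J : ℝ) + 1) * ((UD N).card : ℝ) * (z0.im ^ 2 * ‖qs b z0‖ ^ 2) =
        64 * (((UD N).card : ℝ) * (((J : ℝ) + 1) / 64 * (z0.im ^ 2 * ‖qs b z0‖ ^ 2))) := by ring
    _ ≤ 64 * (200 / Real.pi * nrm N b) := by linarith
    _ = 12800 / Real.pi * nrm N b := by ring

end Pool.Agent.Helper96.MP
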