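import Pool.Agent.Helper96.MP.Defs

set_option autoImplicit false

namespace Pool.Agent.Helper96.MP

open Complex MeasureTheory Filter Topology
open scoped MatrixGroups

/-! ### the maximum -/

theorem strict_cont_smul (g : SL(2, ℤ)) : Continuous (fun z : UpperHalfPlane => g • z) :=
  continuous_const_smul (Matrix.SpecialLinearGroup.mapGL ℝ g)

theorem strict_exists_max {Γ : Subgroup SL(2, ℤ)} [Γ.FiniteIndex] (f : UpperHalfPlane → ℝ)
    (hc : Continuous f) (hinv : ∀ g ∈ Γ, ∀ τ, f (g • τ) = f τ)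
    (hinf : ∀ g : SL(2, ℤ), Tendsto (fun τ : UpperHalfPlane => f (g • τ))
      UpperHalfPlane.atImInfty (𝓝 0))
    (zs : UpperHalfPlane) (hs : 0 < f zs) : ∃ z0, ∀ z, f z ≤ f z0 := by
  have : Fintype (SL(2, ℤ) ⧸ Γ) := Subgroup.fintypeQuotientOfFiniteIndex
  have hout : ∀ (g : SL(2, ℤ)) (τ : UpperHalfPlane),
      f ((Quotient.out (QuotientGroup.mk g : SL(2, ℤ) ⧸ Γ))⁻¹ • τ) = f (g⁻¹ • τ) := by
    intro g τ
    obtain ⟨h, hh⟩ := QuotientGroup.mk_out_eq_mul Γ g
    rw [hh, mul_inv_rev, mul_smul]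
    exact hinv _ (Γ.inv_mem h.2) _
  have hev : ∀ γ : SL(2, ℤ) ⧸ Γ, ∃ Y : ℝ, ∀ τ : UpperHalfPlane, Y ≤ τ.im →
      f ((Quotient.out γ)⁻¹ • τ) < f zs := by
    intro γ
    have h1 := (hinf (Quotient.out γ)⁻¹).eventually (gt_mem_nhds hs)
    rw [UpperHalfPlane.atImInfty, eventually_comap] at h1
    obtain ⟨Y, hY⟩ := (eventually_atTop.mp h1)
    exact ⟨Y, fun τ hτ => hY _ hτ τ rfl⟩
  choose Y hY using hev
  obtain ⟨Y0, hY0⟩ : ∃ Y0 : ℝ, ∀ γ, Y γ ≤ Y0 := by
    obtain ⟨Y0, hY0⟩ := (Set.finite_range Y).bddAbove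
    exact ⟨Y0, fun γ => hY0 (Set.mem_range_self γ)⟩
  set K := ModularGroup.truncatedFundamentalDomain Y0 with hK
  have hKc : IsCompact K := ModularGroup.isCompact_truncatedFundamentalDomain Y0
  -- each point either reduces to K or has small value
  have hred : ∀ z : UpperHalfPlane, f z < f zs ∨ ∃ τ ∈ K, ∃ γ : SL(2, ℤ) ⧸ Γ,
      f z = f ((Quotient.out γ)⁻¹ • τ) := by
    intro z
    obtain ⟨g, hg⟩ := ModularGroup.exists_smul_mem_fd z
    have e : f z = f ((Quotient.out (QuotientGroup.mk g : SL(2, ℤ) ⧸ Γ))⁻¹ • (g • z)) := by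
      rw [hout, inv_smul_smul]
    by_cases h : (g • z).im ≤ Y0
    · right
      exact ⟨g • z, ⟨hg, h⟩, _, e⟩
    · left
      rw [e]
      exact hY _ _ ((hY0 _).trans (not_le.mp h).le)
  have hKne : K.Nonempty := by
    rcases hred zs with h | ⟨τ, hτ, -⟩
    · exact absurd h (lt_irrefl _)
    · exact ⟨τ, hτ⟩
  have hmax : ∀ γ : SL(2, ℤ) ⧸ Γ, ∃ τ ∈ K, ∀ τ' ∈ K,
      f ((Quotient.out γ)⁻¹ • τ') ≤ f ((Quotient.out γ)⁻¹ • τ) := by
    intro γ
    have hcont : Continuous (fun τ : UpperHalfPlane => f ((Quotient.out γ)⁻¹ • τ)) :=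
      hc.comp (strict_cont_smul _)
    obtain ⟨τ, hτ, h⟩ := hKc.exists_isMaxOn hKne hcont.continuousOn
    exact ⟨τ, hτ, fun τ' hτ' => h hτ'⟩
  choose T hTK hT using hmax
  obtain ⟨γ0, -, hγ0⟩ := Finset.exists_max_image (Finset.univ : Finset (SL(2, ℤ) ⧸ Γ))
    (fun γ => f ((Quotient.out γ)⁻¹ • T γ)) ⟨QuotientGroup.mk 1, Finset.mem_univ _⟩
  have hbest : ∀ z, f z < f zs ∨ f z ≤ f ((Quotient.out γ0)⁻¹ • T γ0) := by
    intro z
    rcases hred z with h | ⟨τ, hτ, γ, e⟩
    · exact Or.inl h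
    · right
      rw [e]
      exact (hT γ τ hτ).trans (hγ0 γ (Finset.mem_univ _))
  refine ⟨(Quotient.out γ0)⁻¹ • T γ0, fun z => ?_⟩
  rcases hbest z with h | h
  · rcases hbest zs with h' | h'
    · exact absurd h' (lt_irrefl _)
    · exact h.le.trans h'
  · exact h

/-! ### the Hecke operator on functions -/

/-- the function `im z * ‖g z‖` -/
noncomputable def strictPhi (b : ℕ → ℂ) (z : ℂ) : ℝ := z.im * ‖qs b z‖

theorem strict_geom (l : ℕ) (hl : 0 < l) (k : ℕ) :
    ∑ j ∈ Finset.range l, exp (2 * (Real.pi : ℂ) * I * (k : ℂ) * ((j : ℂ) / (l : ℂ)))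
      = if l ∣ k then (l : ℂ) else 0 := by
  have hl' : (l : ℂ) ≠ 0 := by exact_mod_cast hl.ne'
  set ζ := exp (2 * (Real.pi : ℂ) * I / (l : ℂ)) with hζ
  have hprim : IsPrimitiveRoot ζ l := Complex.isPrimitiveRoot_exp l hl.ne'
  have hterm : ∀ j : ℕ, exp (2 * (Real.pi : ℂ) * I * (k : ℂ) * ((j : ℂ) / (l : ℂ)))
      = (ζ ^ k) ^ j := by
    intro j
    rw [hζ, ← pow_mul, ← Complex.exp_nat_mul]
    congr 1
    push_cast
    field_simp
  simp only [hterm]
  split_ifs with h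
  · have : ζ ^ k = 1 := (hprim.pow_eq_one_iff_dvd k).mpr h
    simp [this]
  · have hne : ζ ^ k ≠ 1 := fun h' => h ((hprim.pow_eq_one_iff_dvd k).mp h')
    rw [geom_sum_eq hne, ← pow_mul, mul_comm k l, pow_mul, hprim.pow_eq_one, one_pow, sub_self,
      zero_div]

theorem strict_first (l : ℕ) (hl : 0 < l) (b : ℕ → ℂ)
    (hb : ∀ τ : ℂ, 0 < τ.im →
      Summable (fun k : ℕ => b k * exp (2 * (Real.pi : ℂ) * I * (k : ℂ) * τ)))
    (τ : ℂ) (hτ : 0 < τ.im) :
    HasSum (fun n : ℕ => b (l * n) * exp (2 * (Real.pi : ℂ) * I * (n : ℂ) * τ))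
      ((l : ℂ)⁻¹ * ∑ j ∈ Finset.range l, qs b ((τ + j) / l)) := by
  have hl' : (l : ℂ) ≠ 0 := by exact_mod_cast hl.ne'
  have hlR : (0 : ℝ) < l := by exact_mod_cast hl
  have him : ∀ j : ℕ, 0 < ((τ + j) / l : ℂ).im := by
    intro j
    have : ((τ + j) / l : ℂ).im = τ.im / l := by
      rw [Complex.div_natCast_im]; simp
    rw [this]; positivity
  have h1 : ∀ j ∈ Finset.range l, HasSum
      (fun k : ℕ => b k * exp (2 * (Real.pi : ℂ) * I * (k : ℂ) * ((τ + j) / l)))
      (qs b ((τ + j) / l)) := fun j _ => (hb _ (him j)).hasSum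
  have h2 := (hasSum_sum h1).mul_left ((l : ℂ)⁻¹)
  have h3 : ∀ k : ℕ, (l : ℂ)⁻¹ * ∑ j ∈ Finset.range l,
      b k * exp (2 * (Real.pi : ℂ) * I * (k : ℂ) * ((τ + j) / l))
      = if l ∣ k then b k * exp (2 * (Real.pi : ℂ) * I * (k : ℂ) * (τ / l)) else 0 := by
    intro k
    have : ∀ j : ℕ, b k * exp (2 * (Real.pi : ℂ) * I * (k : ℂ) * ((τ + j) / l))
        = b k * exp (2 * (Real.pi : ℂ) * I * (k : ℂ) * (τ / l)) *
          exp (2 * (Real.pi : ℂ) * I * (k : ℂ) * ((j : ℂ) / (l : ℂ))) := by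
      intro j
      rw [mul_assoc (b k), ← Complex.exp_add]
      congr 2
      ring
    simp only [this]
    rw [← Finset.mul_sum, strict_geom l hl]
    split_ifs
    · field_simp
    · simp
  simp only [h3] at h2
  have hinj : Function.Injective (fun n : ℕ => l * n) := fun a c h => by
    exact Nat.eq_of_mul_eq_mul_left hl h
  rw [← hinj.hasSum_iff] at h2
  · have e : (fun n : ℕ => b (l * n) * exp (2 * (Real.pi : ℂ) * I * (n : ℂ) * τ))
        = ((fun k : ℕ => if l ∣ k then b k * exp (2 * (Real.pi : ℂ) * I * (k : ℂ) * (τ / l)) else 0)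
          ∘ fun n => l * n) := by
      funext n
      simp only [Function.comp, dvd_mul_right, if_true]
      congr 2
      push_cast
      field_simp
    rw [e]
    exact h2
  · intro k hk
    rw [if_neg]
    rintro ⟨m, rfl⟩
    exact hk ⟨m, rfl⟩

theorem strict_second (l : ℕ) (hl : 0 < l) (b : ℕ → ℂ)
    (hb : ∀ τ : ℂ, 0 < τ.im →
      Summable (fun k : ℕ => b k * exp (2 * (Real.pi : ℂ) * I * (k : ℂ) * τ)))
    (τ : ℂ) (hτ : 0 < τ.im) :
    HasSum (fun n : ℕ => (if l ∣ n then (l : ℂ) * b (n / l) else 0) *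
        exp (2 * (Real.pi : ℂ) * I * (n : ℂ) * τ))
      ((l : ℂ) * qs b (l * τ)) := by
  have hlR : (0 : ℝ) < l := by exact_mod_cast hl
  have him : 0 < ((l : ℂ) * τ).im := by
    have : ((l : ℂ) * τ).im = l * τ.im := by simp
    rw [this]; positivity
  have h2 := ((hb _ him).hasSum).mul_left (l : ℂ)
  have hinj : Function.Injective (fun n : ℕ => l * n) := fun a c h => by
    exact Nat.eq_of_mul_eq_mul_left hl h
  rw [← hinj.hasSum_iff]
  · have e : ((fun n : ℕ => (if l ∣ n then (l : ℂ) * b (n / l) else 0) *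
        exp (2 * (Real.pi : ℂ) * I * (n : ℂ) * τ)) ∘ fun n => l * n)
        = fun i => (l : ℂ) * (b i * exp (2 * (Real.pi : ℂ) * I * (i : ℂ) * ((l : ℂ) * τ))) := by
      funext n
      simp only [Function.comp, dvd_mul_right, if_true, Nat.mul_div_cancel_left n hl]
      rw [mul_assoc]
      congr 3
      push_cast
      ring
    rw [e]
    exact h2
  · intro k hk
    rw [if_neg, zero_mul]
    rintro ⟨m, rfl⟩
    exact hk ⟨m, rfl⟩

theorem strict_eigen (l : ℕ) (hl : 0 < l) (b : ℕ → ℂ) (α : ℂ)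
    (hb : ∀ τ : ℂ, 0 < τ.im →
      Summable (fun k : ℕ => b k * exp (2 * (Real.pi : ℂ) * I * (k : ℂ) * τ)))
    (hα : ∀ n, Tl l b n = α * b n) (τ : ℂ) (hτ : 0 < τ.im) :
    α * qs b τ = (l : ℂ)⁻¹ * ∑ j ∈ Finset.range l, qs b ((τ + j) / l) + (l : ℂ) * qs b (l * τ) := by
  have h1 := (strict_first l hl b hb τ hτ).add (strict_second l hl b hb τ hτ)
  have h2 := ((hb τ hτ).hasSum).mul_left α
  have e : (fun n : ℕ => α * (b n * exp (2 * (Real.pi : ℂ) * I * (n : ℂ) * τ)))
      = fun n : ℕ => b (l * n) * exp (2 * (Real.pi : ℂ) * I * (n : ℂ) * τ) +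
        (if l ∣ n then (l : ℂ) * b (n / l) else 0) * exp (2 * (Real.pi : ℂ) * I * (n : ℂ) * τ) := by
    funext n
    rw [← add_mul, ← mul_assoc, ← hα n]
    rfl
  rw [e] at h2
  exact h2.unique h1

theorem strict_ineq (l : ℕ) (hl : 0 < l) (b : ℕ → ℂ) (α : ℂ)
    (hb : ∀ τ : ℂ, 0 < τ.im →
      Summable (fun k : ℕ => b k * exp (2 * (Real.pi : ℂ) * I * (k : ℂ) * τ)))
    (hα : ∀ n, Tl l b n = α * b n) (τ : ℂ) (hτ : 0 < τ.im) :
    ‖α‖ * strictPhi b τ ≤ ∑ j ∈ Finset.range l, strictPhi b ((τ + j) / l) + strictPhi b (l * τ) := by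
  have hlR : (0 : ℝ) < l := by exact_mod_cast hl
  have h := strict_eigen l hl b α hb hα τ hτ
  have h1 : ‖α‖ * ‖qs b τ‖ ≤ (l : ℝ)⁻¹ * ∑ j ∈ Finset.range l, ‖qs b ((τ + j) / l)‖
      + l * ‖qs b (l * τ)‖ := by
    rw [← norm_mul, h]
    refine (norm_add_le _ _).trans ?_
    rw [norm_mul, norm_mul, norm_inv, Complex.norm_natCast]
    gcongr
    exact norm_sum_le _ _
  have h2 : ∀ j : ℕ, strictPhi b ((τ + j) / l) = (τ.im / l) * ‖qs b ((τ + j) / l)‖ := by
    intro j
    have : ((τ + j) / l : ℂ).im = τ.im / l := by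
      rw [Complex.div_natCast_im]; simp
    unfold strictPhi
    rw [this]
  have h3 : strictPhi b (l * τ) = l * τ.im * ‖qs b (l * τ)‖ := by
    have : ((l : ℂ) * τ).im = l * τ.im := by simp
    unfold strictPhi
    rw [this]
  simp only [h2, h3]
  rw [← Finset.mul_sum]
  calc ‖α‖ * strictPhi b τ = τ.im * (‖α‖ * ‖qs b τ‖) := by unfold strictPhi; ring
    _ ≤ τ.im * ((l : ℝ)⁻¹ * ∑ j ∈ Finset.range l, ‖qs b ((τ + j) / l)‖
      + l * ‖qs b (l * τ)‖) := mul_le_mul_of_nonneg_left h1 hτ.le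
    _ = _ := by rw [div_eq_mul_inv]; ring

theorem strict_im (p q r s : ℤ) (h : p * s - q * r = 1) (τ : ℂ) :
    (mo p q r s τ).im = τ.im / Complex.normSq ((r : ℂ) * τ + s) := by
  unfold mo
  rw [Complex.div_im]
  have h' : (p : ℝ) * s - q * r = 1 := by exact_mod_cast h
  simp only [Complex.add_re, Complex.add_im, Complex.mul_re, Complex.mul_im, Complex.intCast_re,
    Complex.intCast_im, zero_mul, sub_zero, add_zero]
  rw [← sub_div]
  congr 1
  linear_combination τ.im * h'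

theorem strict_pow_im (l k : ℕ) (z : ℂ) : ((l : ℂ) ^ k * z).im = (l : ℝ) ^ k * z.im := by
  have : ((l : ℂ) ^ k) = (((l : ℝ) ^ k : ℝ) : ℂ) := by push_cast; rfl
  rw [this, Complex.im_ofReal_mul]

theorem st_STRICT (hQD : ST_QDIF) (hFL : ST_FLIM) (hQU : ST_QUNI) : ST_STRICT := by
  intro M l b α hM hl hlM hb hne hα
  have hMz : NeZero M := ⟨by omega⟩
  have hl0 : 0 < l := hl.pos
  have hlR : (0 : ℝ) < l := by exact_mod_cast hl0
  obtain ⟨-, hdiff, -, -, -, -⟩ := hQD M b hM hb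
  obtain ⟨hcusp, -, -, -, -⟩ := hFL M b hM hb
  have hnn : ∀ z : ℂ, 0 < z.im → 0 ≤ strictPhi b z := fun z hz =>
    mul_nonneg hz.le (norm_nonneg _)
  -- function on the upper half plane
  set f : UpperHalfPlane → ℝ := fun z => strictPhi b (z : ℂ) with hf
  have hc : Continuous f := by
    have h1 : Continuous (fun z : UpperHalfPlane => qs b (z : ℂ)) :=
      hdiff.continuousOn.comp_continuous UpperHalfPlane.continuous_coe (fun z => z.2)
    have h2 : Continuous (fun z : UpperHalfPlane => (z : ℂ).im) :=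
      Complex.continuous_im.comp UpperHalfPlane.continuous_coe
    exact h2.mul h1.norm
  have hcoe : ∀ (g : SL(2, ℤ)) (z : UpperHalfPlane),
      ((g • z : UpperHalfPlane) : ℂ) = mo (g 0 0) (g 0 1) (g 1 0) (g 1 1) (z : ℂ) := by
    intro g z
    rw [UpperHalfPlane.coe_specialLinearGroup_apply]
    unfold mo
    simp
  have hdet : ∀ g : SL(2, ℤ), g 0 0 * g 1 1 - g 0 1 * g 1 0 = 1 := by
    intro g
    have := g.det_coe
    rwa [Matrix.det_fin_two] at this
  have hinv : ∀ g ∈ CongruenceSubgroup.Gamma0 M, ∀ z : UpperHalfPlane, f (g • z) = f z := by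
    intro g hg z
    have hdvd : (M : ℤ) ∣ g 1 0 := by
      rw [CongruenceSubgroup.Gamma0_mem] at hg
      exact (ZMod.intCast_zmod_eq_zero_iff_dvd _ _).mp hg
    have hz : 0 < (z : ℂ).im := z.2
    have e1 := hb.inv (z : ℂ) hz (g 0 0) (g 0 1) (g 1 0) (g 1 1) (hdet g) hdvd
    have e2 := strict_im (g 0 0) (g 0 1) (g 1 0) (g 1 1) (hdet g) (z : ℂ)
    have hden : 0 < Complex.normSq (((g 1 0 : ℤ) : ℂ) * (z : ℂ) + ((g 1 1 : ℤ) : ℂ)) := by
      rw [Complex.normSq_pos]
      intro h0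
      have h1 := congrArg Complex.im h0
      simp at h1
      rcases h1 with h1 | h1
      · have h2 := congrArg Complex.re h0
        simp [h1] at h2
        have := hdet g
        rw [h1, h2] at this
        simp at this
      · exact absurd h1 (by have := z.2; exact ne_of_gt this)
    simp only [hf]
    unfold strictPhi
    rw [hcoe g z, e2]
    unfold mo
    rw [e1, norm_mul, norm_pow, ← Complex.normSq_eq_norm_sq]
    field_simp
  have hinf : ∀ g : SL(2, ℤ), Tendsto (fun z : UpperHalfPlane => f (g • z))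
      UpperHalfPlane.atImInfty (𝓝 0) := by
    intro g
    have h1 := (hcusp (g 0 0) (g 0 1) (g 1 0) (g 1 1) (by rw [hdet g]; norm_num)).2
    have h2 : Tendsto (fun z : UpperHalfPlane => (z : ℂ)) UpperHalfPlane.atImInfty
        (comap Complex.im atTop) := by
      rw [tendsto_comap_iff]
      exact tendsto_comap
    refine (h1.comp h2).congr (fun z => ?_)
    simp only [Function.comp, hf]
    unfold strictPhi
    rw [hcoe g z]
  -- a point with positive value
  obtain ⟨zs, hzs⟩ : ∃ z : UpperHalfPlane, 0 < f z := by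
    by_contra hcon
    push Not at hcon
    obtain ⟨n, hn⟩ := hne
    apply hn
    have h0 : ∀ τ ∈ UH, qs b τ = qs (fun _ => 0) τ := by
      intro τ hτ
      have h1 := hcon ⟨τ, hτ⟩
      have h2 : strictPhi b τ ≤ 0 := h1
      unfold strictPhi at h2
      have hτ' : 0 < τ.im := hτ
      have h3 : ‖qs b τ‖ ≤ 0 := by
        by_contra h4
        push Not at h4
        exact absurd h2 (not_le.mpr (mul_pos hτ' h4))
      have h5 : qs b τ = 0 := norm_le_zero_iff.mp h3
      rw [h5]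
      unfold qs
      simp
    have := hQU b (fun _ => 0) (fun τ hτ => hb.sum τ hτ) (fun τ _ => by simp) h0
    rw [this]
  obtain ⟨z0, hz0⟩ := strict_exists_max (Γ := CongruenceSubgroup.Gamma0 M) f hc hinv hinf zs hzs
  have hm : 0 < f z0 := lt_of_lt_of_le hzs (hz0 zs)
  have hle : ∀ z : ℂ, 0 < z.im → strictPhi b z ≤ f z0 := fun z hz => hz0 ⟨z, hz⟩
  by_contra hcon
  push Not at hcon
  -- equality propagates
  have hstep : ∀ z : ℂ, 0 < z.im → strictPhi b z = f z0 → strictPhi b (l * z) = f z0 := by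
    intro z hz hzm
    have h1 := strict_ineq l hl0 b α hb.sum hα z hz
    have h2 : ∑ j ∈ Finset.range l, strictPhi b ((z + j) / l) ≤ l * f z0 := by
      have := Finset.sum_le_card_nsmul (Finset.range l) (fun j : ℕ => strictPhi b ((z + j) / l))
        (f z0) (fun j _ => hle _ (by
          have : ((z + (j : ℂ)) / l : ℂ).im = z.im / l := by
            rw [Complex.div_natCast_im]; simp
          rw [this]; positivity))
      simpa using this
    have h3 : strictPhi b (l * z) ≤ f z0 := hle _ (by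
      have : ((l : ℂ) * z).im = l * z.im := by simp
      rw [this]; positivity)
    rw [hzm] at h1
    have h4 : ((l : ℝ) + 1) * f z0 ≤ ‖α‖ * f z0 := mul_le_mul_of_nonneg_right hcon hm.le
    apply le_antisymm h3
    linarith
  have hall : ∀ k : ℕ, strictPhi b ((l : ℂ) ^ k * (z0 : ℂ)) = f z0 := by
    intro k
    induction k with
    | zero => simp [hf]
    | succ k ih =>
      have him : 0 < ((l : ℂ) ^ k * (z0 : ℂ)).im := by
        rw [strict_pow_im]
        have : 0 < (z0 : ℂ).im := z0.2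
        positivity
      have := hstep _ him ih
      rw [← this]
      congr 1
      ring
  have hl1 : (1 : ℝ) < l := by exact_mod_cast hl.one_lt
  have h1 := (hcusp 1 0 0 1 (by norm_num)).2
  have h2 : Tendsto (fun k : ℕ => (l : ℂ) ^ k * (z0 : ℂ)) atTop (comap Complex.im atTop) := by
    rw [tendsto_comap_iff]
    have e : (Complex.im ∘ fun k : ℕ => (l : ℂ) ^ k * (z0 : ℂ))
        = fun k : ℕ => (l : ℝ) ^ k * (z0 : ℂ).im := by
      funext k
      exact strict_pow_im l k _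
    rw [e]
    exact (tendsto_pow_atTop_atTop_of_one_lt hl1).atTop_mul_const z0.2
  have h3 := h1.comp h2
  have h4 : ((fun z : ℂ => (mo 1 0 0 1 z).im * ‖qs b (mo 1 0 0 1 z)‖) ∘
      fun k : ℕ => (l : ℂ) ^ k * (z0 : ℂ)) = fun _ => f z0 := by
    funext k
    simp only [Function.comp]
    have e : mo 1 0 0 1 ((l : ℂ) ^ k * (z0 : ℂ)) = (l : ℂ) ^ k * (z0 : ℂ) := by
      unfold mo; simp
    rw [e]
    exact hall k
  rw [h4] at h3
  have h5 := tendsto_nhds_unique h3 tendsto_const_nhds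
  exact absurd h5.symm hm.ne'

end Pool.Agent.Helper96.MP
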